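import Pool.Agent.Y522.ML.Var

/-!
# Exact Lagrangian submanifolds of `T*T^n` transverse to the fibres are graphs
-/

set_option autoImplicit false

open Set Filter Topology Metric Function
open scoped ContDiff RealInnerProductSpace

noncomputable section

namespace Pool.Agent.Q196.LG

open Pool.Agent.Y522.ML

variable {n : ℕ}

/-- `v` is tangent to `Λ` at `z` -/
def Tan (Λ : Set (E n × E n)) (z v : E n × E n) : Prop :=
  ∃ γ : ℝ → E n × E n, ContDiff ℝ ∞ γ ∧ (∀ r, γ r ∈ Λ) ∧ γ 0 = z ∧ HasDerivAt γ v 0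

/-- `f` is a primitive of `p dq` on `Λ` -/
structure IsPrim (Λ : Set (E n × E n)) (f : E n × E n → ℝ) : Prop where
  smooth : ContDiff ℝ ∞ f
  per : ∀ z ∈ Λ, ∀ k : Fin n → ℤ, f (z.1 + latt k, z.2) = f z
  prim : ∀ z ∈ Λ, ∀ v, Tan Λ z v → fderiv ℝ f z v = ⟪z.2, v.1⟫

theorem tan_of_map {Λ : Set (E n × E n)} {F : E n → E n × E n} (hF : ContDiff ℝ ∞ F)
    (hΛ : ∀ s, F s ∈ Λ) (s v : E n) : Tan Λ (F s) (fderiv ℝ F s v) := by
  refine ⟨fun r => F (s + r • v), hF.comp (contDiff_const.add (contDiff_id.smul contDiff_const)),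
    fun r => hΛ _, by simp, ?_⟩
  have h1 : HasDerivAt (fun r : ℝ => s + r • v) v 0 := by
    have := ((hasDerivAt_id (0:ℝ)).smul_const v).const_add s
    simpa using this
  have h2 : HasFDerivAt F (fderiv ℝ F s) (s + (0:ℝ) • v) := by
    rw [zero_smul, add_zero]
    exact (hF.differentiable (by simp) s).hasFDerivAt
  exact h2.comp_hasDerivAt (0:ℝ) h1

/-- parametrisations by the base -/
theorem loc_inv {Λ : Set (E n × E n)} (hΛ : LagT n Λ) {c : ℝ} (hc : 0 < c)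
    (hg : ∀ z ∈ Λ, ∀ v, Tan Λ z v → c * ‖v‖ ≤ ‖v.1‖) : ∀ z ∈ Λ,
    ∃ (F : E n → E n × E n) (I : E n → E n), ContDiff ℝ ∞ F ∧
      ContDiffAt ℝ ∞ I z.1 ∧ (∀ s, F s ∈ Λ) ∧ F (I z.1) = z ∧
      (∀ᶠ x in 𝓝 z.1, (F (I x)).1 = x) ∧
      (∀ s v w, om (fderiv ℝ F s v) (fderiv ℝ F s w) = 0) ∧
      ∃ U ∈ 𝓝 z, ∀ y ∈ Λ, ∀ y' ∈ Λ, y ∈ U → y' ∈ U → y.1 = y'.1 → y = y' := by
  intro z hz
  obtain ⟨F, hF, hF0, hFi, hU, himm, hom⟩ := hΛ.par z hz
  have hFΛ : ∀ s, F s ∈ Λ := by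
    intro s
    obtain ⟨U, -, hU'⟩ := hU univ isOpen_univ
    have : F s ∈ F '' univ := mem_image_of_mem _ (mem_univ s)
    rw [hU'] at this
    exact this.1
  obtain ⟨G, hGd⟩ : ∃ G : E n → E n, G = fun s => (F s).1 := ⟨_, rfl⟩
  have hG : ContDiff ℝ ∞ G := by
    rw [hGd]
    exact contDiff_fst.comp hF
  have hGder : ∀ s v, fderiv ℝ G s v = (fderiv ℝ F s v).1 := by
    intro s v
    have h1 : HasFDerivAt F (fderiv ℝ F s) s := (hF.differentiable (by simp) s).hasFDerivAt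
    have h2 : HasFDerivAt G ((ContinuousLinearMap.fst ℝ (E n) (E n)).comp (fderiv ℝ F s)) s := by
      rw [hGd]
      exact hasFDerivAt_fst.comp s h1
    rw [h2.fderiv]
    rfl
  have hinj : Injective (fderiv ℝ G 0 : E n →ₗ[ℝ] E n) := by
    rw [← LinearMap.ker_eq_bot, LinearMap.ker_eq_bot']
    intro v hv
    have hv' : fderiv ℝ G 0 v = 0 := hv
    have h1 := hg _ (hFΛ 0) _ (tan_of_map hF hFΛ 0 v)
    rw [← hGder, hv', norm_zero] at h1
    have h2 : ‖fderiv ℝ F 0 v‖ ≤ 0 := by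
      by_contra hcon
      push Not at hcon
      have := mul_pos hc hcon
      linarith
    exact himm 0 v (norm_le_zero_iff.1 h2)
  let e : E n ≃L[ℝ] E n := (LinearEquiv.ofInjectiveEndo _ hinj).toContinuousLinearEquiv
  have he : HasFDerivAt G (e : E n →L[ℝ] E n) 0 := by
    have h1 := ((hG.differentiable (by simp)).differentiableAt (x := (0 : E n))).hasFDerivAt
    have h2 : (e : E n →L[ℝ] E n) = fderiv ℝ G 0 := by
      ext1 v
      rfl
    rw [h2]
    exact h1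
  have hGa : ContDiffAt ℝ ∞ G 0 := hG.contDiffAt
  have hn : (∞ : WithTop ℕ∞) ≠ 0 := by simp
  have hG0 : G 0 = z.1 := by rw [hGd]; simp only [hF0]
  refine ⟨F, hGa.localInverse he hn, hF, ?_, hFΛ, ?_, ?_, hom, ?_⟩
  · rw [← hG0]
    exact hGa.to_localInverse he hn
  · rw [← hG0, hGa.localInverse_apply_image he hn, hF0]
  · rw [← hG0]
    have h3 := (hGa.hasStrictFDerivAt' he hn).eventually_right_inverse
    filter_upwards [h3] with x hx
    have h4 : G (hGa.localInverse he hn x) = x := hx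
    exact (congrFun hGd _).symm.trans h4
  · -- local injectivity
    have h3 := (hGa.hasStrictFDerivAt' he hn).eventually_left_inverse
    obtain ⟨V, hV, hVo, hV0⟩ := _root_.eventually_nhds_iff.1 h3
    obtain ⟨U, hUo, hUeq⟩ := hU V hVo
    refine ⟨U, hUo.mem_nhds ?_, ?_⟩
    · have : F 0 ∈ F '' V := mem_image_of_mem _ hV0
      rw [hUeq, hF0] at this
      exact this.2
    · intro y hy y' hy' hyU hyU' hyy
      have a1 : y ∈ F '' V := by rw [hUeq]; exact ⟨hy, hyU⟩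
      have a2 : y' ∈ F '' V := by rw [hUeq]; exact ⟨hy', hyU'⟩
      obtain ⟨s, hs, rfl⟩ := a1
      obtain ⟨s', hs', rfl⟩ := a2
      have h5 : G s = G s' := by rw [hGd]; exact hyy
      have h6 := hV s hs
      have h7 := hV s' hs'
      rw [h5] at h6
      rw [← h6, h7]

/-- **exact Lagrangian submanifolds transverse to the fibres meet each fibre at most once** -/
theorem inj_of_exact {Λ : Set (E n × E n)} (hΛ : LagT n Λ) {c : ℝ} (hc : 0 < c)
    (hg : ∀ z ∈ Λ, ∀ v, Tan Λ z v → c * ‖v‖ ≤ ‖v.1‖) {f : E n × E n → ℝ} (hf : IsPrim Λ f) :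
    ∀ z ∈ Λ, ∀ z' ∈ Λ, z.1 = z'.1 → z = z' := by
  by_contra hcon
  push Not at hcon
  obtain ⟨z₀, hz₀, z₀', hz₀', h00, hne0⟩ := hcon
  obtain ⟨R, hR⟩ := hΛ.bdd
  -- the double points
  let Q : Set ((E n × E n) × (E n × E n)) := {w | w.1 ∈ Λ ∧ w.2 ∈ Λ ∧ w.1.1 = w.2.1 ∧ w.1 ≠ w.2}
  have hQc : IsClosed Q := by
    rw [← isOpen_compl_iff, isOpen_iff_mem_nhds]
    rintro ⟨a, b⟩ hab
    by_cases ha : a ∈ Λ
    · by_cases hb : b ∈ Λ
      · by_cases he : a.1 = b.1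
        · have hEq : a = b := by
            by_contra hn
            exact hab ⟨ha, hb, he, hn⟩
          subst hEq
          obtain ⟨F, I, -, -, -, -, -, -, U, hU, hUi⟩ := loc_inv hΛ hc hg a ha
          filter_upwards [prod_mem_nhds hU hU] with w hw hwQ
          exact hwQ.2.2.2 (hUi _ hwQ.1 _ hwQ.2.1 hw.1 hw.2 hwQ.2.2.1)
        · have h1 : IsOpen {w : (E n × E n) × (E n × E n) | w.1.1 ≠ w.2.1} :=
            isOpen_ne_fun (by fun_prop) (by fun_prop)
          filter_upwards [h1.mem_nhds (show a.1 ≠ b.1 from he)] with w hw hwQ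
          exact hw hwQ.2.2.1
      · have h1 : IsOpen {w : (E n × E n) × (E n × E n) | w.2 ∉ Λ} :=
          hΛ.closed.isOpen_compl.preimage continuous_snd
        filter_upwards [h1.mem_nhds (show b ∉ Λ from hb)] with w hw hwQ
        exact hw hwQ.2.1
    · have h1 : IsOpen {w : (E n × E n) × (E n × E n) | w.1 ∉ Λ} :=
        hΛ.closed.isOpen_compl.preimage continuous_fst
      filter_upwards [h1.mem_nhds (show a ∉ Λ from ha)] with w hw hwQ
      exact hw hwQ.1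
  have hboxc : IsCompact ((fun x : Fin n → ℝ => (WithLp.toLp 2 x : E n)) ''
      (Set.pi univ fun _ => Icc (0 : ℝ) 1)) :=
    (isCompact_univ_pi fun _ => isCompact_Icc).image (PiLp.continuous_toLp 2 _)
  set B0 : Set (E n) := (fun x : Fin n → ℝ => (WithLp.toLp 2 x : E n)) ''
      (Set.pi univ fun _ => Icc (0 : ℝ) 1) with hB0
  have hKc : IsCompact (Q ∩ ((B0 ×ˢ closedBall (0 : E n) R) ×ˢ (B0 ×ˢ closedBall (0 : E n) R))) :=
    ((hboxc.prod (isCompact_closedBall _ _)).prod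
      (hboxc.prod (isCompact_closedBall _ _))).inter_left hQc
  have hshift : ∀ w ∈ Q, ∃ k : Fin n → ℤ, ((w.1.1 + latt k, w.1.2), (w.2.1 + latt k, w.2.2)) ∈
      Q ∩ ((B0 ×ˢ closedBall (0 : E n) R) ×ˢ (B0 ×ˢ closedBall (0 : E n) R)) := by
    rintro w ⟨h1, h2, h3, h4⟩
    refine ⟨fun i => -⌊w.1.1 i⌋, ⟨hΛ.per _ h1 _, hΛ.per _ h2 _, ?_, ?_⟩, ?_⟩
    · show w.1.1 + _ = w.2.1 + _
      rw [h3]
    · intro he
      apply h4
      have e1 := (Prod.ext_iff.1 he).1
      have e2 := (Prod.ext_iff.1 he).2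
      exact Prod.ext (add_right_cancel e1) e2
    · have hb : w.1.1 + latt (fun i => -⌊w.1.1 i⌋) ∈ B0 := by
        refine ⟨fun i => Int.fract (w.1.1 i), ?_, ?_⟩
        · intro i _
          exact ⟨Int.fract_nonneg _, (Int.fract_lt_one _).le⟩
        · ext i
          show Int.fract (w.1.1 i) = w.1.1 i + ((-⌊w.1.1 i⌋ : ℤ) : ℝ)
          rw [Int.cast_neg, ← sub_eq_add_neg, Int.self_sub_floor]
      have hb' : w.2.1 + latt (fun i => -⌊w.1.1 i⌋) ∈ B0 := by
        rw [← h3]; exact hb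
      refine ⟨⟨hb, ?_⟩, ⟨hb', ?_⟩⟩
      · rw [mem_closedBall_zero_iff]; exact hR w.1 h1
      · rw [mem_closedBall_zero_iff]; exact hR w.2 h2
  have hne : (Q ∩ ((B0 ×ˢ closedBall (0 : E n) R) ×ˢ
      (B0 ×ˢ closedBall (0 : E n) R))).Nonempty := by
    obtain ⟨k, hk⟩ := hshift (z₀, z₀') ⟨hz₀, hz₀', h00, hne0⟩
    exact ⟨_, hk⟩
  obtain ⟨⟨z, z'⟩, hzQ, hmax⟩ := hKc.exists_isMaxOn hne
    (f := fun w => f w.1 - f w.2)
    ((hf.smooth.continuous.comp continuous_fst).sub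
      (hf.smooth.continuous.comp continuous_snd)).continuousOn
  have hmaxQ : ∀ w ∈ Q, f w.1 - f w.2 ≤ f z - f z' := by
    intro w hw
    obtain ⟨k, hk⟩ := hshift w hw
    have h1 := hmax hk
    have h2 : f (w.1.1 + latt k, w.1.2) - f (w.2.1 + latt k, w.2.2) ≤ f z - f z' := h1
    rwa [hf.per _ hw.1, hf.per _ hw.2.1] at h2
  obtain ⟨hzΛ, hz'Λ, hzz, hzne⟩ := hzQ.1
  have hzz1 : z.1 = z'.1 := hzz
  obtain ⟨F, I, hF, hI, hFΛ, hFI, hFr, -, -⟩ := loc_inv hΛ hc hg z hzΛ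
  obtain ⟨F', I', hF', hI', hFΛ', hFI', hFr', -, -⟩ := loc_inv hΛ hc hg z' hz'Λ
  rw [← hzz1] at hI' hFI' hFr'
  apply hzne
  refine Prod.ext hzz1 ?_
  refine ext_inner_right ℝ fun v => ?_
  -- the curves over `z.1 + r v`
  have hline : HasDerivAt (fun r : ℝ => z.1 + r • v) v 0 := by
    have := ((hasDerivAt_id (0:ℝ)).smul_const v).const_add z.1
    simpa using this
  have hlt : Tendsto (fun r : ℝ => z.1 + r • v) (𝓝 0) (𝓝 z.1) := by
    have := hline.continuousAt.tendsto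
    simpa using this
  have key : ∀ (F : E n → E n × E n) (I : E n → E n) (y : E n × E n), ContDiff ℝ ∞ F →
      ContDiffAt ℝ ∞ I z.1 → (∀ s, F s ∈ Λ) → F (I z.1) = y →
      (∀ᶠ x in 𝓝 z.1, (F (I x)).1 = x) →
      HasDerivAt (fun r : ℝ => f (F (I (z.1 + r • v)))) ⟪y.2, v⟫ 0 := by
    intro F I y hF hI hFΛ hFI hFr
    have hId : HasFDerivAt I (fderiv ℝ I z.1) (z.1 + (0:ℝ) • v) := by
      rw [zero_smul, add_zero]
      exact (hI.differentiableAt (by simp)).hasFDerivAt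
    have h1 := hId.comp_hasDerivAt (0:ℝ) hline
    have hFd : HasFDerivAt F (fderiv ℝ F (I z.1)) (I (z.1 + (0:ℝ) • v)) := by
      rw [zero_smul, add_zero]
      exact (hF.differentiable (by simp) _).hasFDerivAt
    have h2 : HasDerivAt (fun r : ℝ => F (I (z.1 + r • v)))
        (fderiv ℝ F (I z.1) (fderiv ℝ I z.1 v)) 0 := hFd.comp_hasDerivAt (0:ℝ) h1
    have h3 : (fderiv ℝ F (I z.1) (fderiv ℝ I z.1 v)).1 = v := by
      have h4 : HasDerivAt (fun r : ℝ => (F (I (z.1 + r • v))).1)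
          (fderiv ℝ F (I z.1) (fderiv ℝ I z.1 v)).1 0 :=
        (ContinuousLinearMap.fst ℝ (E n) (E n)).hasFDerivAt.comp_hasDerivAt (0:ℝ) h2
      have h5 : (fun r : ℝ => (F (I (z.1 + r • v))).1) =ᶠ[𝓝 0] fun r => z.1 + r • v :=
        hlt.eventually hFr
      exact h4.unique (hline.congr_of_eventuallyEq h5)
    have hfd : HasFDerivAt f (fderiv ℝ f (F (I z.1))) (F (I (z.1 + (0:ℝ) • v))) := by
      rw [zero_smul, add_zero]
      exact (hf.smooth.differentiable (by simp) _).hasFDerivAt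
    have h6 := hfd.comp_hasDerivAt (0:ℝ) h2
    have h7 := hf.prim _ (hFΛ (I z.1)) _ (tan_of_map hF hFΛ (I z.1) (fderiv ℝ I z.1 v))
    rw [h3] at h7
    rw [h7, hFI] at h6
    exact h6
  have d1 := key F I z hF hI hFΛ hFI hFr
  have d2 := key F' I' z' hF' hI' hFΛ' hFI' hFr'
  have hmaxl : IsLocalMax (fun r : ℝ => f (F (I (z.1 + r • v))) - f (F' (I' (z.1 + r • v)))) 0 := by
    have c1 : ContinuousAt (fun r : ℝ => F (I (z.1 + r • v))) 0 := by
      have c3 : ContinuousAt I ((fun r : ℝ => z.1 + r • v) 0) := by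
        simp only [zero_smul, add_zero]
        exact hI.continuousAt
      exact ContinuousAt.comp (f := fun r : ℝ => I (z.1 + r • v)) hF.continuous.continuousAt
        (ContinuousAt.comp (f := fun r : ℝ => z.1 + r • v) c3 hline.continuousAt)
    have c2 : ContinuousAt (fun r : ℝ => F' (I' (z.1 + r • v))) 0 := by
      have c3 : ContinuousAt I' ((fun r : ℝ => z.1 + r • v) 0) := by
        simp only [zero_smul, add_zero]
        exact hI'.continuousAt
      exact ContinuousAt.comp (f := fun r : ℝ => I' (z.1 + r • v)) hF'.continuous.continuousAt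
        (ContinuousAt.comp (f := fun r : ℝ => z.1 + r • v) c3 hline.continuousAt)
    have h1 : ∀ᶠ r : ℝ in 𝓝 0, F (I (z.1 + r • v)) ≠ F' (I' (z.1 + r • v)) := by
      have h2 : F (I (z.1 + (0:ℝ) • v)) - F' (I' (z.1 + (0:ℝ) • v)) ≠ 0 := by
        rw [zero_smul, add_zero, hFI, hFI']
        exact sub_ne_zero.2 hzne
      filter_upwards [(c1.sub c2).eventually_ne h2] with r hr
      exact sub_ne_zero.1 hr
    filter_upwards [h1, hlt.eventually hFr, hlt.eventually hFr'] with r r1 r2 r3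
    have h2 := hmaxQ (F (I (z.1 + r • v)), F' (I' (z.1 + r • v)))
      ⟨hFΛ _, hFΛ' _, r2.trans r3.symm, r1⟩
    simp only [zero_smul, add_zero, hFI, hFI']
    exact h2
  have h3 := hmaxl.hasDerivAt_eq_zero (d1.sub d2)
  exact sub_eq_zero.1 h3

end Pool.Agent.Q196.LG
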