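import Pool.Agent.Q196.LG.Graph

/-!
# Exact Lagrangian submanifolds transverse to the fibres are images of the zero section
-/

set_option autoImplicit false

open Set Filter Topology Metric Function
open scoped ContDiff RealInnerProductSpace

noncomputable section

namespace Pool.Agent.Q196.LG

open Pool.Agent.Y522.ML

variable {n : ℕ}

theorem pair_bound {Λ : Set (E n × E n)} (hΛ : LagT n Λ) {c : ℝ} (hc : 0 < c)
    (hg : ∀ z ∈ Λ, ∀ v, Tan Λ z v → c * ‖v‖ ≤ ‖v.1‖)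
    (hinj : ∀ z ∈ Λ, ∀ z' ∈ Λ, z.1 = z'.1 → z = z') :
    ∀ z ∈ Λ, ∀ z' ∈ Λ, c * ‖z - z'‖ ≤ ‖z.1 - z'.1‖ := by
  obtain ⟨R, hR⟩ := hΛ.bdd
  have hsurj : Prod.fst '' Λ = univ := by
    refine IsClopen.eq_univ ⟨?_, ?_⟩ (hΛ.nonempty.image _)
    · rw [← isSeqClosed_iff_isClosed]
      intro x y hx hxy
      choose z hz hzx using hx
      obtain ⟨N, hN⟩ := (Metric.isBounded_range_of_tendsto x hxy).exists_norm_le
      have hb : ∀ i, z i ∈ closedBall (0 : E n × E n) (max N R) := by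
        intro i
        rw [mem_closedBall_zero_iff, Prod.norm_def]
        refine max_le_max ?_ (hR _ (hz i))
        rw [hzx i]
        exact hN _ (mem_range_self i)
      obtain ⟨w, -, φ, hφ, hw⟩ := (isCompact_closedBall (0 : E n × E n) (max N R)).tendsto_subseq hb
      have hwΛ : w ∈ Λ := hΛ.closed.mem_of_tendsto hw (Eventually.of_forall fun i => hz _)
      refine ⟨w, hwΛ, ?_⟩
      have h1 : Tendsto (fun i => (z (φ i)).1) atTop (𝓝 w.1) :=
        (continuous_fst.tendsto w).comp hw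
      have h2 : Tendsto (fun i => (z (φ i)).1) atTop (𝓝 y) := by
        have h3 : (fun i => (z (φ i)).1) = fun i => x (φ i) := funext fun i => hzx _
        rw [h3]
        exact hxy.comp hφ.tendsto_atTop
      exact tendsto_nhds_unique h1 h2
    · rw [isOpen_iff_mem_nhds]
      rintro _ ⟨z, hz, rfl⟩
      obtain ⟨F, I, -, -, hFΛ, -, hr, -, -⟩ := loc_inv hΛ hc hg z hz
      filter_upwards [hr] with x hx
      exact ⟨F (I x), hFΛ _, hx⟩
  have hex : ∀ x, ∃ z, z ∈ Λ ∧ z.1 = x := by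
    intro x
    have : x ∈ Prod.fst '' Λ := by rw [hsurj]; trivial
    obtain ⟨z, hz, hzx⟩ := this
    exact ⟨z, hz, hzx⟩
  choose B hBΛ hBA using hex
  have hBs : ContDiff ℝ ∞ B := by
    rw [contDiff_iff_contDiffAt]
    intro x
    obtain ⟨F, I, hF, hI, hFΛ, hFI, hr, -, -⟩ := loc_inv hΛ hc hg (B x) (hBΛ x)
    rw [hBA] at hI hr hFI
    have he : B =ᶠ[𝓝 x] fun y => F (I y) := by
      filter_upwards [hr] with y hy
      exact hinj _ (hBΛ y) _ (hFΛ _) ((hBA y).trans hy.symm)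
    exact (hF.contDiffAt.comp x hI).congr_of_eventuallyEq he
  have hBd : ∀ x v, c * ‖fderiv ℝ B x v‖ ≤ ‖v‖ := by
    intro x v
    have h1 := hg _ (hBΛ x) _ (tan_of_map hBs hBΛ x v)
    have h2 : (fderiv ℝ B x v).1 = v := by
      have h3 : HasFDerivAt (fun x => (B x).1)
          ((ContinuousLinearMap.fst ℝ (E n) (E n)).comp (fderiv ℝ B x)) x :=
        hasFDerivAt_fst.comp x (hBs.differentiable (by simp) x).hasFDerivAt
      have h4 : (fun x => (B x).1) = fun x => x := funext hBA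
      rw [h4] at h3
      exact DFunLike.congr_fun (h3.unique (hasFDerivAt_id x)) v
    rwa [h2] at h1
  have hBl : ∀ x x', ‖B x - B x'‖ ≤ 1 / c * ‖x - x'‖ := by
    intro x x'
    refine Convex.norm_image_sub_le_of_norm_fderiv_le (𝕜 := ℝ) (s := univ) (fun y _ =>
      (hBs.differentiable (by simp)).differentiableAt) (fun y _ => ?_)
      convex_univ (mem_univ _) (mem_univ _)
    refine ContinuousLinearMap.opNorm_le_bound _ (by positivity) fun v => ?_
    have := hBd y v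
    rw [div_mul_eq_mul_div, one_mul, le_div_iff₀ hc]
    linarith
  intro z hz z' hz'
  have e1 : z = B z.1 := hinj _ hz _ (hBΛ _) (hBA _).symm
  have e2 : z' = B z'.1 := hinj _ hz' _ (hBΛ _) (hBA _).symm
  have h1 := hBl z.1 z'.1
  rw [← e1, ← e2, div_mul_eq_mul_div, one_mul, le_div_iff₀ hc] at h1
  linarith

/-- lower order derivatives of periodic functions with bounded support in `p` are Lipschitz -/
theorem lip_fderiv {W : Type} [NormedAddCommGroup W] [NormedSpace ℝ W] {k : E n × E n → W}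
    (hk : ContDiff ℝ ∞ k) (hp : ∀ w (l : Fin n → ℤ), k (w.1 + latt l, w.2) = k w) {R : ℝ}
    (h0 : ∀ w, R < ‖w.2‖ → k w = 0) :
    ∃ L : ℝ, 0 ≤ L ∧ ∀ w w', ‖fderiv ℝ k w - fderiv ℝ k w'‖ ≤ L * ‖w - w'‖ := by
  have key : ∀ {W : Type} [NormedAddCommGroup W] [NormedSpace ℝ W] (k : E n × E n → W),
      (∀ w (l : Fin n → ℤ), k (w.1 + latt l, w.2) = k w) → (∀ w, R < ‖w.2‖ → k w = 0) →
      (∀ w (l : Fin n → ℤ), fderiv ℝ k (w.1 + latt l, w.2) = fderiv ℝ k w) ∧
      ∀ w, R < ‖w.2‖ → fderiv ℝ k w = 0 := by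
    intro W _ _ k hp h0
    constructor
    · intro w l
      have h1 : (fun y => k (y + (latt l, 0))) = k := by
        funext y
        have := hp y l
        rw [← this]
        congr 1
        exact Prod.ext rfl (add_zero _)
      have h2 := fderiv_comp_add_right (𝕜 := ℝ) (f := k) (x := w) ((latt l, 0) : E n × E n)
      rw [h1] at h2
      rw [h2]
      congr 1
      exact Prod.ext rfl (add_zero _).symm
    · intro w hw
      have h1 : k =ᶠ[𝓝 w] fun _ => (0 : W) := by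
        have h2 : IsOpen {w : E n × E n | R < ‖w.2‖} :=
          isOpen_lt continuous_const continuous_snd.norm
        filter_upwards [h2.mem_nhds hw] with y hy
        exact h0 y hy
      rw [h1.fderiv_eq]
      exact (hasFDerivAt_const (0:W) w).fderiv
  obtain ⟨p1, z1⟩ := key k hp h0
  obtain ⟨p2, z2⟩ := key (fderiv ℝ k) p1 z1
  have hD : ContDiff ℝ ∞ (fderiv ℝ k) := hk.fderiv_right (by simp)
  obtain ⟨L, hL, hb⟩ := bddper (fderiv ℝ (fderiv ℝ k)) (hD.continuous_fderiv (by simp)) p2 R z2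
  refine ⟨L, hL, fun w w' => ?_⟩
  exact Convex.norm_image_sub_le_of_norm_fderiv_le (𝕜 := ℝ) (s := univ) (fun y _ =>
      (hD.differentiable (by simp)).differentiableAt) (fun y _ => hb y)
      convex_univ (mem_univ _) (mem_univ _)

/-- `B` is the vertical Hessian of `H` -/
def IsVertHess (H : E n × E n → ℝ) (B : E n × E n → E n →L[ℝ] E n) : Prop :=
  ∀ z v w, ⟪B z v, w⟫ = fderiv ℝ (fderiv ℝ H) z (0, v) (0, w)

set_option maxHeartbeats 1000000 in
/-- **exact Lagrangian submanifolds one-sided at the tangent planes** -/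
theorem one_sided {Λ : Set (E n × E n)} (hΛ : LagT n Λ) {f : E n × E n → ℝ} (hf : IsPrim Λ f)
    {H : E n × E n → ℝ} (hHs : ContDiff ℝ ∞ H)
    (hHp : ∀ z (k : Fin n → ℤ), H (z.1 + latt k, z.2) = H z)
    {B : E n × E n → E n →L[ℝ] E n} (hB : IsVertHess H B) {C b : ℝ} (hb : 0 < b)
    (hC : ∀ z ∈ Λ, ∀ v, Tan Λ z v → -C * ‖v.1‖ ^ 2 ≤ ⟪v.1, B z v.2⟫ ∧
      b * ‖v.2‖ ≤ ‖B z v.2‖ + C * ‖v.1‖) :
    ∃ ψ : E n × E n ≃ E n × E n, ContDiff ℝ ∞ ψ ∧ ContDiff ℝ ∞ ψ.symm ∧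
      (∀ z k, ψ (z.1 + latt k, z.2) = ((ψ z).1 + latt k, (ψ z).2)) ∧
      (∀ z a b, om (fderiv ℝ ψ z a) (fderiv ℝ ψ z b) = om a b) ∧ ψ '' {z | z.2 = 0} = Λ := by
  obtain ⟨R, hR⟩ := hΛ.bdd
  obtain ⟨z₀, hz₀⟩ := hΛ.nonempty
  have hR0 : 0 ≤ R := (norm_nonneg _).trans (hR _ hz₀)
  let χ : ContDiffBump (0 : E n) := ⟨R + 1, R + 2, by linarith, by linarith⟩
  have hχs : ContDiff ℝ ∞ (χ : E n → ℝ) := χ.contDiff
  have hχ1 : ∀ p, ‖p‖ ≤ R + 1 → χ p = 1 := fun p hp =>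
    χ.one_of_mem_closedBall (by rw [mem_closedBall_zero_iff]; exact hp)
  have hχ0 : ∀ p, R + 2 < ‖p‖ → χ p = 0 := fun p hp =>
    χ.zero_of_le_dist (by rw [dist_zero_right]; exact hp.le)
  obtain ⟨K, hKd⟩ : ∃ K : E n × E n → ℝ, K = fun w => χ w.2 * H w := ⟨_, rfl⟩
  have hK : ContDiff ℝ ∞ K := by
    rw [hKd]
    exact (hχs.comp contDiff_snd).mul hHs
  have hKp : ∀ w (k : Fin n → ℤ), K (w.1 + latt k, w.2) = K w := fun w k => by
    rw [hKd]; simp only [hHp]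
  have hK0 : ∀ w, R + 2 < ‖w.2‖ → K w = 0 := fun w hw => by
    rw [hKd]; simp only [hχ0 _ hw, zero_mul]
  obtain ⟨k₁, k₂, M, hM, s1, s2, hk, p1, p2, b1, b2, l1, l2⟩ := exists_grad K hK hKp (R + 2) hK0
  -- `k₂` vanishes for large `p`
  have hk20 : ∀ w, R + 2 < ‖w.2‖ → k₂ w = 0 := by
    intro w hw
    have h1 : K =ᶠ[𝓝 w] fun _ => (0 : ℝ) := by
      have h2 : IsOpen {w : E n × E n | R + 2 < ‖w.2‖} :=
        isOpen_lt continuous_const continuous_snd.norm
      filter_upwards [h2.mem_nhds hw] with y hy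
      exact hK0 y hy
    refine ext_inner_right ℝ fun a => ?_
    have h3 := hk w (0, a)
    rw [h1.fderiv_eq] at h3
    simp at h3
    rw [inner_zero_left]
    exact h3.symm
  obtain ⟨L, hL, hLd⟩ := lip_fderiv s2 p2 hk20
  -- the vertical derivative of `k₂`
  have hkB : ∀ w, ‖w.2‖ ≤ R → ∀ v, fderiv ℝ k₂ w (0, v) = B w v := by
    intro w hw v
    refine ext_inner_right ℝ fun a => ?_
    rw [hB]
    have h1 : K =ᶠ[𝓝 w] H := by
      have h2 : IsOpen {w : E n × E n | ‖w.2‖ < R + 1} :=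
        isOpen_lt continuous_snd.norm continuous_const
      filter_upwards [h2.mem_nhds (show ‖w.2‖ < R + 1 by linarith)] with y hy
      rw [hKd]
      show χ y.2 * H y = H y
      rw [hχ1 _ (le_of_lt hy), one_mul]
    have h2 : fderiv ℝ K =ᶠ[𝓝 w] fderiv ℝ H := h1.fderiv
    rw [← h2.fderiv_eq]
    have hD : ContDiff ℝ ∞ (fderiv ℝ K) := hK.fderiv_right (by simp)
    have h3 : HasFDerivAt (fun y => fderiv ℝ K y ((0 : E n), a))
        ((fderiv ℝ (fderiv ℝ K) w).flip ((0 : E n), a)) w := by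
      have := ((hD.differentiable (by simp) w).hasFDerivAt).clm_apply
        (hasFDerivAt_const ((0 : E n), a) w)
      simpa using this
    have h4 : HasFDerivAt (fun y => ⟪a, k₂ y⟫) ((innerSL ℝ a).comp (fderiv ℝ k₂ w)) w :=
      (innerSL ℝ a).hasFDerivAt.comp w (s2.differentiable (by simp) w).hasFDerivAt
    have h5 : (fun y => fderiv ℝ K y ((0 : E n), a)) = fun y => ⟪a, k₂ y⟫ := by
      funext y
      rw [hk]
      simp only [inner_zero_right, zero_add, add_zero]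
      exact real_inner_comm _ _
    rw [h5] at h3
    have h6 := DFunLike.congr_fun (h3.unique h4) ((0 : E n), v)
    have h7 : fderiv ℝ (fderiv ℝ K) w (0, v) (0, a) = ⟪a, fderiv ℝ k₂ w (0, v)⟫ := h6
    rw [h7, real_inner_comm]
  -- the constants
  obtain ⟨C', hC'⟩ : ∃ C' : ℝ, C' = max C 0 := ⟨_, rfl⟩
  have hc3 : C ≤ C' := by rw [hC']; exact le_max_left C 0
  have hc4 : 0 ≤ C' := by rw [hC']; exact le_max_right C 0
  have hCC : ∀ z ∈ Λ, ∀ v, Tan Λ z v → -C' * ‖v.1‖ ^ 2 ≤ ⟪v.1, B z v.2⟫ ∧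
      b * ‖v.2‖ ≤ ‖B z v.2‖ + C' * ‖v.1‖ := by
    intro z hz v hv
    obtain ⟨h1, h2⟩ := hC z hz v hv
    constructor
    · nlinarith [sq_nonneg ‖v.1‖]
    · nlinarith [norm_nonneg v.1]
  obtain ⟨T, hT⟩ : ∃ T : ℝ, T = 2 * M + 4 * C' + 4 * (L * M) / b + 1 := ⟨_, rfl⟩
  have hLM : 0 ≤ 4 * (L * M) / b := by positivity
  have hT0 : 0 < T := by rw [hT]; positivity
  obtain ⟨t, htd⟩ : ∃ t : ℝ, t = 1 / T := ⟨_, rfl⟩
  have ht : 0 < t := by rw [htd]; positivity
  have htT : t * T = 1 := by rw [htd]; field_simp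
  have htM : t * M ≤ 1 / 2 := by
    have h1 : t * (2 * M) ≤ t * T := mul_le_mul_of_nonneg_left (by rw [hT]; linarith) ht.le
    linarith
  have htC : 4 * t * C' ≤ 1 := by
    have h1 : t * (4 * C') ≤ t * T := mul_le_mul_of_nonneg_left (by rw [hT]; linarith) ht.le
    linarith
  have htL : 4 * t * (L * M) ≤ b := by
    have h1 : t * (4 * (L * M) / b) ≤ t * T := mul_le_mul_of_nonneg_left (by rw [hT]; linarith) ht.le
    rw [htT] at h1
    have h2 := mul_le_mul_of_nonneg_right h1 hb.le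
    have h3 : t * (4 * (L * M) / b) * b = 4 * t * (L * M) := by field_simp
    linarith
  obtain ⟨Φ, P1, P2, P3, P4, P5⟩ := exists_gen K hK s1 s2 hk p1 p2 l1 l2 ht.le htM
  -- the mixed variables
  let Wm : E n × E n → E n × E n := fun z => ((Φ z).1, z.2)
  have hW : ∀ z, (Φ z).1 = z.1 + t • k₂ (Wm z) ∧ (Φ z).2 = z.2 - t • k₁ (Wm z) := by
    intro z
    obtain ⟨w, w1, w2, w3⟩ := P5 z
    have hw : Wm z = w := by
      show ((Φ z).1, z.2) = w
      rw [w3, ← w1]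
    rw [hw]
    rw [w3]
    exact ⟨w2, by rw [w1]⟩
  have hWs : ContDiff ℝ ∞ Wm := (contDiff_fst.comp P1).prodMk contDiff_snd
  have hΦd : ∀ z, HasFDerivAt Φ (fderiv ℝ Φ z) z := fun z =>
    (P1.differentiable (by simp) z).hasFDerivAt
  have hWd : ∀ z, HasFDerivAt Wm (((ContinuousLinearMap.fst ℝ (E n) (E n)).comp
      (fderiv ℝ Φ z)).prod (ContinuousLinearMap.snd ℝ (E n) (E n))) z := fun z =>
    (hasFDerivAt_fst.comp z (hΦd z)).prodMk hasFDerivAt_snd
  have hd1 : ∀ z u, (fderiv ℝ Φ z u).1 =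
      u.1 + t • fderiv ℝ k₂ (Wm z) ((fderiv ℝ Φ z u).1, u.2) := by
    intro z u
    have h1 : HasFDerivAt (fun z => z.1 + t • k₂ (Wm z)) (ContinuousLinearMap.fst ℝ (E n) (E n) +
        t • ((fderiv ℝ k₂ (Wm z)).comp (((ContinuousLinearMap.fst ℝ (E n) (E n)).comp
      (fderiv ℝ Φ z)).prod (ContinuousLinearMap.snd ℝ (E n) (E n))))) z :=
      hasFDerivAt_fst.add (((s2.differentiable (by simp) (Wm z)).hasFDerivAt.comp z
        (hWd z)).const_smul t)
    have h2 : HasFDerivAt (fun z => (Φ z).1) ((ContinuousLinearMap.fst ℝ (E n) (E n)).comp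
        (fderiv ℝ Φ z)) z := hasFDerivAt_fst.comp z (hΦd z)
    have h3 : (fun z => (Φ z).1) = fun z => z.1 + t • k₂ (Wm z) := funext fun z => (hW z).1
    rw [h3] at h2
    exact DFunLike.congr_fun (h2.unique h1) u
  have hd2 : ∀ z u, (fderiv ℝ Φ z u).2 =
      u.2 - t • fderiv ℝ k₁ (Wm z) ((fderiv ℝ Φ z u).1, u.2) := by
    intro z u
    have h1 : HasFDerivAt (fun z => z.2 - t • k₁ (Wm z)) (ContinuousLinearMap.snd ℝ (E n) (E n) -
        t • ((fderiv ℝ k₁ (Wm z)).comp (((ContinuousLinearMap.fst ℝ (E n) (E n)).comp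
      (fderiv ℝ Φ z)).prod (ContinuousLinearMap.snd ℝ (E n) (E n))))) z :=
      hasFDerivAt_snd.sub (((s1.differentiable (by simp) (Wm z)).hasFDerivAt.comp z
        (hWd z)).const_smul t)
    have h2 : HasFDerivAt (fun z => (Φ z).2) ((ContinuousLinearMap.snd ℝ (E n) (E n)).comp
        (fderiv ℝ Φ z)) z := hasFDerivAt_snd.comp z (hΦd z)
    have h3 : (fun z => (Φ z).2) = fun z => z.2 - t • k₁ (Wm z) := funext fun z => (hW z).2
    rw [h3] at h2
    exact DFunLike.congr_fun (h2.unique h1) u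
  have hlipd : ∀ (k : E n × E n → E n), (∀ w w', ‖k w - k w'‖ ≤ M * ‖w - w'‖) →
      ∀ w v, ‖fderiv ℝ k w v‖ ≤ M * ‖v‖ := by
    intro k hk w v
    have h1 : ‖fderiv ℝ k w‖ ≤ M :=
      norm_fderiv_le_of_lip' ℝ hM (Eventually.of_forall fun w' => hk w' w)
    exact ((fderiv ℝ k w).le_opNorm v).trans (mul_le_mul_of_nonneg_right h1 (norm_nonneg _))
  have hpairn : ∀ x y : E n, ‖((x, y) : E n × E n)‖ ≤ ‖x‖ + ‖y‖ := by
    intro x y
    rw [Prod.norm_def]
    exact max_le (by linarith [norm_nonneg y]) (by linarith [norm_nonneg x])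
  -- the estimate
  have hest : ∀ z ∈ Λ, ∀ u, Tan Λ z u →
      t * b / (t * b + 16) * ‖fderiv ℝ Φ z u‖ ≤ ‖(fderiv ℝ Φ z u).1‖ := by
    intro z hz u hu
    obtain ⟨g1, g2⟩ := hCC z hz u hu
    obtain ⟨x, hx⟩ : ∃ x, x = (fderiv ℝ Φ z u).1 := ⟨_, rfl⟩
    have e0 := hd1 z u
    rw [← hx] at e0
    have hwz : ‖Wm z - z‖ ≤ t * M := by
      have h1 : Wm z - z = (t • k₂ (Wm z), 0) := by
        refine Prod.ext ?_ ?_
        · show (Φ z).1 - z.1 = t • k₂ (Wm z)
          rw [(hW z).1, add_sub_cancel_left]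
        · show z.2 - z.2 = 0
          exact sub_self _
      rw [h1, Prod.norm_def]
      simp only [norm_zero]
      refine max_le ?_ (by positivity)
      rw [norm_smul, Real.norm_of_nonneg ht.le]
      exact mul_le_mul_of_nonneg_left (b2 _) ht.le
    have hsplit : fderiv ℝ k₂ (Wm z) (x, u.2) = fderiv ℝ k₂ (Wm z) (x, 0) +
        fderiv ℝ k₂ (Wm z) (0, u.2) := by
      rw [← map_add]
      congr 1
      simp
    have e1 : u.1 + t • B z u.2 = x - (t • fderiv ℝ k₂ (Wm z) (x, 0) +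
        t • ((fderiv ℝ k₂ (Wm z) - fderiv ℝ k₂ z) (0, u.2))) := by
      rw [ContinuousLinearMap.sub_apply, hkB z (hR z hz), smul_sub]
      have h1 : x = u.1 + (t • fderiv ℝ k₂ (Wm z) (x, 0) + t • fderiv ℝ k₂ (Wm z) (0, u.2)) := by
        rw [← smul_add, ← hsplit]
        exact e0
      generalize t • fderiv ℝ k₂ (Wm z) (x, 0) = q1 at h1 ⊢
      generalize t • fderiv ℝ k₂ (Wm z) (0, u.2) = q2 at h1 ⊢
      generalize t • B z u.2 = q3
      rw [h1]
      abel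
    have e2 : ‖u.1 + t • B z u.2‖ ≤ ‖x‖ + (t * (L * (t * M * ‖u.2‖)) + t * (M * ‖x‖)) := by
      rw [e1]
      refine (norm_sub_le _ _).trans (add_le_add le_rfl ((norm_add_le _ _).trans ?_))
      rw [add_comm (t * (L * (t * M * ‖u.2‖)))]
      refine add_le_add ?_ ?_
      · rw [norm_smul, Real.norm_of_nonneg ht.le]
        refine mul_le_mul_of_nonneg_left ((hlipd k₂ l2 _ _).trans ?_) ht.le
        refine mul_le_mul_of_nonneg_left ?_ hM
        have := hpairn x 0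
        rwa [norm_zero, add_zero] at this
      · rw [norm_smul, Real.norm_of_nonneg ht.le]
        refine mul_le_mul_of_nonneg_left ?_ ht.le
        refine ((fderiv ℝ k₂ (Wm z) - fderiv ℝ k₂ z).le_opNorm _).trans ?_
        have h1 : ‖fderiv ℝ k₂ (Wm z) - fderiv ℝ k₂ z‖ ≤ L * (t * M) :=
          (hLd _ _).trans (mul_le_mul_of_nonneg_left hwz hL)
        have h2 : ‖((0 : E n), u.2)‖ ≤ ‖u.2‖ := by
          have := hpairn 0 u.2
          rwa [norm_zero, zero_add] at this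
        calc ‖fderiv ℝ k₂ (Wm z) - fderiv ℝ k₂ z‖ * ‖((0 : E n), u.2)‖
            ≤ (L * (t * M)) * ‖u.2‖ := mul_le_mul h1 h2 (norm_nonneg _) (by positivity)
          _ = _ := by ring
    have e3 : 1 / 2 * ‖u.1‖ ^ 2 + t ^ 2 * ‖B z u.2‖ ^ 2 ≤ ‖u.1 + t • B z u.2‖ ^ 2 := by
      have h1 : ‖u.1 + t • B z u.2‖ ^ 2 = ‖u.1‖ ^ 2 +
          2 * t * ⟪u.1, B z u.2⟫ + t ^ 2 * ‖B z u.2‖ ^ 2 := by
        rw [norm_add_sq_real, norm_smul, inner_smul_right, Real.norm_of_nonneg ht.le]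
        ring
      rw [h1]
      have h3 : 2 * t * (-C' * ‖u.1‖ ^ 2) ≤ 2 * t * ⟪u.1, B z u.2⟫ :=
        mul_le_mul_of_nonneg_left g1 (by positivity)
      have h6 : 4 * t * C' * ‖u.1‖ ^ 2 ≤ 1 * ‖u.1‖ ^ 2 :=
        mul_le_mul_of_nonneg_right htC (by positivity)
      nlinarith
    have e4 : t * b * ‖u.2‖ ≤ 8 * ‖x‖ :=
      arith ht hb (norm_nonneg _) (norm_nonneg _) (norm_nonneg _) (norm_nonneg _) (norm_nonneg _)
        hc4 htM htC htL e2 e3 g2
    have e5 : ‖fderiv ℝ Φ z u‖ ≤ ‖x‖ + 2 * ‖u.2‖ := by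
      rw [Prod.norm_def]
      refine max_le ?_ ?_
      · rw [← hx]
        linarith [norm_nonneg u.2]
      · rw [hd2 z u, ← hx]
        refine (norm_sub_le _ _).trans ?_
        rw [norm_smul, Real.norm_of_nonneg ht.le]
        have h2 := hpairn x u.2
        have h3 : t * ‖fderiv ℝ k₁ (Wm z) (x, u.2)‖ ≤ 1 / 2 * ‖((x, u.2) : E n × E n)‖ := by
          calc t * ‖fderiv ℝ k₁ (Wm z) (x, u.2)‖ ≤ t * (M * ‖((x, u.2) : E n × E n)‖) :=
                mul_le_mul_of_nonneg_left (hlipd k₁ l1 _ _) ht.le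
            _ = (t * M) * ‖((x, u.2) : E n × E n)‖ := by ring
            _ ≤ _ := mul_le_mul_of_nonneg_right htM (norm_nonneg _)
        linarith [norm_nonneg x, norm_nonneg u.2]
    rw [← hx, div_mul_eq_mul_div, div_le_iff₀ (by positivity)]
    have h7 : t * b * ‖fderiv ℝ Φ z u‖ ≤ t * b * (‖x‖ + 2 * ‖u.2‖) :=
      mul_le_mul_of_nonneg_left e5 (by positivity)
    nlinarith
  have hdΦ : ∀ y a, fderiv ℝ Φ (Φ.symm y) (fderiv ℝ Φ.symm y a) = a := by
    intro y a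
    have f1 : HasFDerivAt Φ (fderiv ℝ Φ (Φ.symm y)) (Φ.symm y) := hΦd _
    have f3 : HasFDerivAt Φ.symm (fderiv ℝ Φ.symm y) y :=
      (P2.differentiable (by simp)).differentiableAt.hasFDerivAt
    have f5 : HasFDerivAt (fun y => Φ (Φ.symm y))
        ((fderiv ℝ Φ (Φ.symm y)).comp (fderiv ℝ Φ.symm y)) y := f1.comp y f3
    have f6 : (fun y => Φ (Φ.symm y)) = id := by
      funext y
      simp
    rw [f6] at f5
    exact congrArg (fun L : E n × E n →L[ℝ] E n × E n => L a) (f5.unique (hasFDerivAt_id y))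
  -- tangent vectors of the image
  have htan : ∀ y ∈ Φ '' Λ, ∀ v, Tan (Φ '' Λ) y v →
      Φ.symm y ∈ Λ ∧ Tan Λ (Φ.symm y) (fderiv ℝ Φ.symm y v) := by
    rintro _ ⟨z, hz, rfl⟩ v ⟨γ, g1, g2, g3, g4⟩
    refine ⟨by rw [Equiv.symm_apply_apply]; exact hz, fun r => Φ.symm (γ r), P2.comp g1,
      fun r => ?_, by show Φ.symm (γ 0) = _; rw [g3], ?_⟩
    · obtain ⟨z', hz', he⟩ := g2 r
      show Φ.symm (γ r) ∈ Λ
      rw [← he, Equiv.symm_apply_apply]
      exact hz'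
    · have f3 : HasFDerivAt Φ.symm (fderiv ℝ Φ.symm (Φ z)) (γ 0) := by
        rw [g3]
        exact (P2.differentiable (by simp)).differentiableAt.hasFDerivAt
      exact f3.comp_hasDerivAt (0:ℝ) g4
  have hgT : ∀ y ∈ Φ '' Λ, ∀ v, Tan (Φ '' Λ) y v → t * b / (t * b + 16) * ‖v‖ ≤ ‖v.1‖ := by
    intro y hy v hv
    obtain ⟨h1, h2⟩ := htan y hy v hv
    have h3 := hest _ h1 _ h2
    rwa [hdΦ] at h3
  have hlag : LagT n (Φ '' Λ) := by
    refine push hΛ Φ P1 P2 P3 P4 ⟨R + t * M, fun z hz => ?_⟩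
    rw [(hW z).2]
    refine (norm_sub_le _ _).trans (add_le_add (hR z hz) ?_)
    rw [norm_smul, Real.norm_of_nonneg ht.le]
    exact mul_le_mul_of_nonneg_left (b1 _) ht.le
  -- the primitive on the image
  have hprim : IsPrim (Φ '' Λ) (fun y => f (Φ.symm y) + t * (⟪(Φ.symm y).2, k₂ (Wm (Φ.symm y))⟫ -
      K (Wm (Φ.symm y)))) := by
    have hgs : ContDiff ℝ ∞ fun z => f z + t * (⟪z.2, k₂ (Wm z)⟫ - K (Wm z)) :=
      hf.smooth.add (contDiff_const.mul ((contDiff_snd.inner ℝ (s2.comp hWs)).sub (hK.comp hWs)))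
    refine ⟨hgs.comp P2, ?_, ?_⟩
    · rintro _ ⟨z, hz, rfl⟩ k
      have h1 : Φ.symm ((Φ z).1 + latt k, (Φ z).2) = (z.1 + latt k, z.2) := by
        rw [Equiv.symm_apply_eq, P3]
      have h2 : Wm (z.1 + latt k, z.2) = ((Wm z).1 + latt k, (Wm z).2) := by
        show ((Φ (z.1 + latt k, z.2)).1, z.2) = ((Φ z).1 + latt k, z.2)
        rw [P3]
      simp only [h1, Equiv.symm_apply_apply, h2, p2, hKp, hf.per z hz]
    · intro y hy v hv
      obtain ⟨h1, h2⟩ := htan y hy v hv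
      obtain ⟨z, hz⟩ : ∃ z, z = Φ.symm y := ⟨_, rfl⟩
      obtain ⟨u, hu⟩ : ∃ u, u = fderiv ℝ Φ.symm y v := ⟨_, rfl⟩
      rw [← hz] at h1 h2
      rw [← hu] at h2
      have hyz : Φ z = y := by rw [hz, Equiv.apply_symm_apply]
      have huv : fderiv ℝ Φ z u = v := by rw [hz, hu]; exact hdΦ y v
      have f3 : HasFDerivAt Φ.symm (fderiv ℝ Φ.symm y) y :=
        (P2.differentiable (by simp)).differentiableAt.hasFDerivAt
      have g0 : HasFDerivAt f (fderiv ℝ f z) z := (hf.smooth.differentiable (by simp) z).hasFDerivAt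
      have g1 : HasFDerivAt (fun z => k₂ (Wm z)) ((fderiv ℝ k₂ (Wm z)).comp
          (((ContinuousLinearMap.fst ℝ (E n) (E n)).comp
          (fderiv ℝ Φ z)).prod (ContinuousLinearMap.snd ℝ (E n) (E n)))) z :=
        (s2.differentiable (by simp) (Wm z)).hasFDerivAt.comp z (hWd z)
      have g2 : HasFDerivAt (fun z => K (Wm z)) ((fderiv ℝ K (Wm z)).comp
          (((ContinuousLinearMap.fst ℝ (E n) (E n)).comp
          (fderiv ℝ Φ z)).prod (ContinuousLinearMap.snd ℝ (E n) (E n)))) z :=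
        (hK.differentiable (by simp) (Wm z)).hasFDerivAt.comp z (hWd z)
      have g00 : HasFDerivAt (fun z : E n × E n => z.2) (ContinuousLinearMap.snd ℝ (E n) (E n)) z :=
        hasFDerivAt_snd
      have g3 : HasFDerivAt (fun z : E n × E n => ⟪z.2, k₂ (Wm z)⟫) _ z := g00.inner ℝ g1
      obtain ⟨D, hD, hDu⟩ : ∃ D : E n × E n →L[ℝ] ℝ,
          HasFDerivAt (fun z => f z + t * (⟪z.2, k₂ (Wm z)⟫ - K (Wm z))) D z ∧
          D u = fderiv ℝ f z u + t * ((⟪z.2, fderiv ℝ k₂ (Wm z)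
          ((fderiv ℝ Φ z u).1, u.2)⟫ + ⟪u.2, k₂ (Wm z)⟫) -
          fderiv ℝ K (Wm z) ((fderiv ℝ Φ z u).1, u.2)) :=
        ⟨_, g0.add ((g3.sub g2).const_mul t), by simp [fderivInnerCLM_apply]⟩
      have g5 : HasFDerivAt (fun z => f z + t * (⟪z.2, k₂ (Wm z)⟫ - K (Wm z))) D (Φ.symm y) := by
        rw [← hz]
        exact hD
      have g7 : fderiv ℝ (fun y => f (Φ.symm y) + t * (⟪(Φ.symm y).2, k₂ (Wm (Φ.symm y))⟫ -
          K (Wm (Φ.symm y)))) y v = D u := by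
        have g8 := (g5.comp y f3).fderiv
        have g9 := DFunLike.congr_fun g8 v
        refine Eq.trans g9 ?_
        rw [ContinuousLinearMap.comp_apply, ← hu]
      rw [g7, hDu, hf.prim z h1 u h2, hk, huv]
      have g8 := hd1 z u
      rw [huv] at g8
      have g9 := (hW z).2
      rw [hyz] at g9
      rw [g9]
      simp only
      have g10 : ⟪z.2, v.1⟫ = ⟪z.2, u.1⟫ + t * ⟪z.2, fderiv ℝ k₂ (Wm z) (v.1, u.2)⟫ := by
        conv_lhs => rw [g8]
        rw [inner_add_right, inner_smul_right]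
      rw [inner_sub_left, inner_smul_left, g10]
      simp only [RCLike.conj_to_real]
      rw [real_inner_comm u.2]
      ring
  have hcpos : 0 < t * b / (t * b + 16) := by positivity
  have hinj := inj_of_exact hlag hcpos hgT hprim
  have hpb := pair_bound hlag hcpos hgT hinj
  obtain ⟨ψ, q1, q2, q3, q4, q5⟩ := main hlag (fun _ => 0) contDiff_const
    (fun p v w => by simp) (c := t * b / (t * b + 16)) hcpos (by
      intro z hz z' hz'
      simp only [add_zero]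
      exact hpb z hz z' hz')
  have P3' : ∀ z (k : Fin n → ℤ),
      Φ.symm (z.1 + latt k, z.2) = ((Φ.symm z).1 + latt k, (Φ.symm z).2) := by
    intro z k
    rw [Equiv.symm_apply_eq, P3]
    simp
  refine ⟨ψ.trans Φ.symm, P2.comp q1, q2.comp P1, fun z k => ?_, fun z a b => ?_, ?_⟩
  · show Φ.symm (ψ (z.1 + latt k, z.2)) = ((Φ.symm (ψ z)).1 + latt k, (Φ.symm (ψ z)).2)
    rw [q3, P3']
  · have f1 : HasFDerivAt ψ (fderiv ℝ ψ z) z :=
      (q1.differentiable (by simp)).differentiableAt.hasFDerivAt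
    have f2 : HasFDerivAt Φ.symm (fderiv ℝ Φ.symm (ψ z)) (ψ z) :=
      (P2.differentiable (by simp)).differentiableAt.hasFDerivAt
    have f3 : fderiv ℝ (ψ.trans Φ.symm) z = (fderiv ℝ Φ.symm (ψ z)).comp (fderiv ℝ ψ z) :=
      (f2.comp z f1).fderiv
    rw [f3]
    show om (fderiv ℝ Φ.symm (ψ z) (fderiv ℝ ψ z a)) (fderiv ℝ Φ.symm (ψ z) (fderiv ℝ ψ z b)) = _
    rw [← P4 (Φ.symm (ψ z)), hdΦ, hdΦ, q4]
  · rw [Equiv.coe_trans, image_comp, q5, ← image_comp, Equiv.symm_comp_self, image_id]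

end Pool.Agent.Q196.LG
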